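import Pool.Agent.helper58.DC.Spec4

/-!
# EX: the extension of a normal subgroup
-/

set_option autoImplicit false

open Pool.Agent Pool.Agent.helper58.DC

namespace Pool.Agent.helper77.DZ

theorem EX : EX_stmt := by
  intro G E _ _ ι hι hN
  have hsp : ∀ (e : E) (g : G), ι ((MulAut.congr (MonoidHom.ofInjective hι).symm)
      (MulAut.conjNormal e) g) = e * ι g * e⁻¹ := by
    intro e g
    show ι ((MonoidHom.ofInjective hι).symm (MulAut.conjNormal e (MonoidHom.ofInjective hι g))) = _
    rw [MonoidHom.apply_ofInjective_symm, MulAut.conjNormal_apply]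
    rfl
  refine ⟨E ⧸ ι.range, inferInstance,
    { inc := ι
      proj := QuotientGroup.mk' ι.range
      inc_injective := hι
      proj_surjective := QuotientGroup.mk'_surjective _
      exact := fun e => ⟨fun h => (QuotientGroup.eq_one_iff e).1 h,
        fun h => (QuotientGroup.eq_one_iff e).2 h⟩
      act := (MulAut.congr (MonoidHom.ofInjective hι).symm).toMonoidHom.comp MulAut.conjNormal
      act_spec := hsp }, rfl⟩

end Pool.Agent.helper77.DZ
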